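import Pool.Agent.H310R3.Inh.Stmts

/-! # TaskBridge (helper929): from internal spaces to spaces in the model. -/

set_option maxHeartbeats 1000000
set_option linter.all false
set_option synthInstance.maxSize 2000

namespace Pool.Agent.H929R3.InhBridge

open FirstOrder FirstOrder.Language
open Pool.Agent.H310
open Pool.Agent.Helper672.ZFA
open Pool.Agent.H310Cards
open Pool.Agent.H310Top
open Pool.Agent.H310R3.Inh (ICH NS TaskBridge)

universe u u₁

section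

attribute [local instance] Helper672.Plain.toL

variable {M : Type u} [Helper672.Plain.LSet.Structure M] [hZ : Helper672.Plain.Zermelo M]
variable {α : Type u₁}

local instance instModelB929 : IsModel M := Helper672.Plain.isModel_toL

variable [ITy M α]

theorem isFinite_code {s : IPow M α} (hs : IFin s) : IsFinite (code (M := M) s) := by
  obtain ⟨e, n, h2, h3, h4⟩ := exists_BN hs
  have he : IntF M (fun a => e a) := e.int
  have iG : Int M (fun q : α × INat M => q.1 ∈ s ∧ e q.1 = q.2) := by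
    (repeat' (first | with_reducible exact IntF.id | with_reducible exact IntF.fst' | with_reducible exact IntF.snd' | with_reducible exact IntF.const _ | with_reducible exact Int.const _ | assumption | with_reducible apply Int.and | with_reducible apply Int.or | with_reducible apply Int.not | with_reducible apply Int.imp | with_reducible apply Int.iff | with_reducible apply Int.ne | with_reducible apply Int.eq | with_reducible apply Int.mem | with_reducible apply Int.subset | with_reducible apply Int.all | with_reducible apply Int.ex | with_reducible apply IntF.fst | with_reducible apply IntF.snd | with_reducible apply IntF.app | (with_reducible refine Int.comp ?_ ?_; assumption) | (with_reducible refine IntF.comp ?_ ?_; assumption) | with_reducible apply IntF.pair))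
  let G : IPow M (α × INat M) := ⟨fun q => q.1 ∈ s ∧ e q.1 = q.2, iG⟩
  have hG : ∀ {x y : M}, App (code (M := M) G) x y ↔
      ∃ a, a ∈ s ∧ code a = x ∧ code (e a) = y := by
    intro x y
    rw [app_iff]
    refine (mem_code_pow (s := G)).trans ?_
    constructor
    · rintro ⟨⟨a, b⟩, ⟨h5, h6⟩, h7⟩
      obtain ⟨h8, h9⟩ := op_inj h7
      refine ⟨a, h5, h8, ?_⟩
      rw [← h9]
      exact congrArg code h6
    · rintro ⟨a, ha, rfl, rfl⟩
      exact ⟨(a, e a), ⟨ha, rfl⟩, rfl⟩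
  refine ⟨n.val, code (M := M) G, fun i hi => n.prop i (ind_iff.2 hi),
    ⟨⟨fun q hq => ?_, fun x hx => ?_⟩, fun x x' y h5 h6 => ?_⟩, fun y hy => ?_⟩
  · obtain ⟨⟨a, b⟩, ⟨h5, h6⟩, rfl⟩ := (mem_code_pow (s := G)).1 hq
    refine ⟨code a, code b, mem_codeU.2 ⟨a, h5, rfl⟩, ?_, ordPair_iff.2 rfl⟩
    have h7 := h2 a h5
    have h8 : e a = b := h6
    rw [h8] at h7
    exact h7
  · obtain ⟨a, ha, rfl⟩ := mem_codeU.1 hx
    refine ⟨code (e a), hG.2 ⟨a, ha, rfl, rfl⟩, fun y hy => ?_⟩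
    obtain ⟨b, hb, h7, h8⟩ := hG.1 hy
    rw [← h8, ITy.inj h7]
  · obtain ⟨b, hb, rfl, h7⟩ := hG.1 h5
    obtain ⟨c, hc, rfl, h8⟩ := hG.1 h6
    rw [h3 b c hb hc (ITy.inj (h7.trans h8.symm))]
  · replace hy : Mem y n.val := hy
    obtain ⟨m, h5, rfl⟩ := mem_nat hy
    obtain ⟨b, hb, rfl⟩ := h4 m h5
    exact ⟨code b, hG.2 ⟨b, hb, rfl, rfl⟩⟩

theorem bridge {d : M} {K : Type u} [ITy M K] (Op : IPow M (IPow M K)) (f : El d → K)
    (hf : IntF M f) (hinj : Function.Injective f) (hK : ICH M K Op) (hNS : NS M K Op)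
    (hiso : ∀ a, ∃ U, U ∈ Op ∧ ∀ z, z ∈ U ↔ z = f a)
    (hde : ∀ U, U ∈ Op → (∃ z, z ∈ U) → ∃ a, f a ∈ U) :
    ∃ x t, H310NAS.IsCompactification d x t ∧ ¬ H310Top.IsScattered t x := by
  have hmem : ∀ {U : IPow M K} {a : K}, Mem (code (M := M) a) (code (M := M) U) ↔
      a ∈ U := mem_code_iff
  have hmemO : ∀ {U : IPow M K}, Mem (code (M := M) U) (code (M := M) Op) ↔ U ∈ Op := mem_code_iff
  have hx : ∀ z : M, Mem z (code (M := M) (iuniv M K)) ↔ ∃ a : K, code a = z := fun z => by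
    rw [mem_codeU]
    exact ⟨fun ⟨a, _, h⟩ => ⟨a, h⟩, fun ⟨a, h⟩ => ⟨a, by simp, h⟩⟩
  let F : IFun M (El d) K := ⟨f, hf⟩
  have hF : ∀ a, F a = f a := fun a => rfl
  refine ⟨code (M := M) (iuniv M K), code (M := M) Op, ⟨⟨?_, ?_, ?_, ?_⟩, ?_, ?_,
    ⟨code (M := M) F, ⟨isFun_code F (fun z => mem_El) fun a => (hx _).2 ⟨_, rfl⟩, ?_⟩, ?_, ?_⟩⟩, ?_⟩
  · intro u hu z hz
    obtain ⟨U, hU, rfl⟩ := mem_codeU.1 hu
    obtain ⟨a, -, rfl⟩ := mem_codeU.1 hz
    exact (hx _).2 ⟨a, rfl⟩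
  · exact hmemO.2 hK.univ
  · intro u v w hu hv hw
    obtain ⟨U, hU, rfl⟩ := mem_codeU.1 hu
    obtain ⟨V, hV, rfl⟩ := mem_codeU.1 hv
    have h1 : code (M := M) (U ∩ V) = w := extM fun z => by
      refine mem_codeU.trans (Iff.trans ?_ (hw z).symm)
      constructor
      · rintro ⟨a, ha, rfl⟩
        exact ⟨hmem.2 (mem_inter.1 ha).1, hmem.2 (mem_inter.1 ha).2⟩
      · rintro ⟨h1, h2⟩
        obtain ⟨a, ha, rfl⟩ := mem_codeU.1 h1
        exact ⟨a, mem_inter.2 ⟨ha, hmem.1 h2⟩, rfl⟩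
    rw [← h1]
    exact hmemO.2 (hK.inter U V hU hV)
  · intro c w hc hw
    obtain ⟨G, rfl⟩ := exists_code_of (α := IPow M K) (u := c) fun z hz => by
      obtain ⟨U, -, h⟩ := mem_codeU.1 (hc z hz)
      exact ⟨U, h⟩
    have h1 : code (M := M) (isUnion G) = w := extM fun z => by
      refine mem_codeU.trans (Iff.trans ?_ (hw z).symm)
      constructor
      · rintro ⟨a, ha, rfl⟩
        obtain ⟨U, hU, haU⟩ := mem_isUnion.1 ha
        exact ⟨code (M := M) U, mem_codeU.2 ⟨U, hU, rfl⟩, hmem.2 haU⟩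
      · rintro ⟨u, hu, hz⟩
        obtain ⟨U, hU, rfl⟩ := mem_codeU.1 hu
        obtain ⟨a, ha, rfl⟩ := mem_codeU.1 hz
        exact ⟨a, mem_isUnion.2 ⟨U, hU, ha⟩, rfl⟩
    rw [← h1]
    exact hmemO.2 (hK.union G fun U hU => hmemO.1 (hc _ (mem_codeU.2 ⟨U, hU, rfl⟩)))
  · intro c hc hcov
    obtain ⟨G, rfl⟩ := exists_code_of (α := IPow M K) (u := c) fun z hz => by
      obtain ⟨U, -, h⟩ := mem_codeU.1 (hc z hz)
      exact ⟨U, h⟩
    obtain ⟨H, hH, hHG, hHc⟩ := hK.compact G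
      (fun U hU => hmemO.1 (hc _ (mem_codeU.2 ⟨U, hU, rfl⟩))) fun z => by
        obtain ⟨u, hu, hzu⟩ := hcov (code (M := M) z) ((hx _).2 ⟨z, rfl⟩)
        obtain ⟨U, hU, rfl⟩ := mem_codeU.1 hu
        exact ⟨U, hU, hmem.1 hzu⟩
    refine ⟨code (M := M) H, isFinite_code hH, fun u hu => ?_, fun z hz => ?_⟩
    · obtain ⟨U, hU, rfl⟩ := mem_codeU.1 hu
      exact mem_codeU.2 ⟨U, hHG U hU, rfl⟩
    · obtain ⟨a, rfl⟩ := (hx z).1 hz
      obtain ⟨U, hU, haU⟩ := hHc a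
      exact ⟨code (M := M) U, mem_codeU.2 ⟨U, hU, rfl⟩, hmem.2 haU⟩
  · intro y z hy hz hne
    obtain ⟨a, rfl⟩ := (hx y).1 hy
    obtain ⟨b, rfl⟩ := (hx z).1 hz
    obtain ⟨U, V, hU, hV, ha, hb, hd⟩ := hK.haus a b fun h => hne (by rw [h])
    refine ⟨code (M := M) U, code (M := M) V, hmemO.2 hU, hmemO.2 hV, hmem.2 ha, hmem.2 hb,
      fun w hw hw' => ?_⟩
    obtain ⟨c, hc, rfl⟩ := mem_codeU.1 hw
    exact hd c hc (hmem.1 hw')
  · intro x x' y h5 h6
    obtain ⟨b, rfl, h7⟩ := app_code.1 h5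
    obtain ⟨c, rfl, h8⟩ := app_code.1 h6
    rw [hinj (ITy.inj (h7.trans h8.symm) : f b = f c)]
  · intro a y hay
    obtain ⟨b, rfl, rfl⟩ := app_code.1 hay
    obtain ⟨U, hU, hU'⟩ := hiso b
    refine ⟨code (M := M) U, hmemO.2 hU, hmem.2 ((hU' _).2 rfl), fun c z hcz hz => ?_⟩
    obtain ⟨w, hw, rfl⟩ := mem_codeU.1 hz
    rw [(hU' w).1 hw]
  · rintro u hu ⟨z, hz⟩
    obtain ⟨U, hU, rfl⟩ := mem_codeU.1 hu
    obtain ⟨w, hw, rfl⟩ := mem_codeU.1 hz
    obtain ⟨a, ha⟩ := hde U hU ⟨w, hw⟩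
    exact ⟨code (M := M) a, code (M := M) (f a), app_code.2 ⟨a, rfl, rfl⟩, hmem.2 ha⟩
  · intro hs
    obtain ⟨A, ⟨z, hz⟩, hA⟩ := hNS
    obtain ⟨w, hw, u, hu, hwu, hiso'⟩ := hs (code (M := M) A) (fun z hz => by
      obtain ⟨a, -, rfl⟩ := mem_codeU.1 hz
      exact (hx _).2 ⟨a, rfl⟩) ⟨code (M := M) z, hmem.2 hz⟩
    obtain ⟨b, hb, rfl⟩ := mem_codeU.1 hw
    obtain ⟨U, hU, rfl⟩ := mem_codeU.1 hu
    obtain ⟨y, hyA, hyU, hne⟩ := hA b U hb hU (hmem.1 hwu)
    exact hne (ITy.inj (hiso' _ (hmem.2 hyU) (hmem.2 hyA)))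

end

theorem taskBridge : TaskBridge := by
  intro N _ _ d K _ Op f hf hinj hK hNS hiso hde
  exact bridge Op f hf hinj hK hNS hiso hde

end Pool.Agent.H929R3.InhBridge
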